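import Mathlib
import Pool.Agent.TH787.WreathUltra
import Pool.Agent.Y302.WU.Ultra
import Pool.Agent.Results.MP_37efd7_lc.LargeGroup

/-!
# Topologizable groups all of whose small subsets are closed in every Hausdorff group topology

For every infinite cardinal `κ` there is a topologizable group `G` with `κ < |G| ≤ 2 ^ κ` such that
in every Hausdorff group topology on `G` every subset of cardinality at most `κ` is closed.  Hence
in every such topology all compact sets are finite, and a Hausdorff group topology on `G` whose
closures are determined by subsets of cardinality at most `κ` (for instance a sequential one) is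
discrete; in particular `G` has no sequential group topology of intermediate sequential order.
The starting file `LargeGroup` is the case of convergent sequences (`κ = ℵ₀`).
-/

set_option autoImplicit false

namespace Pool.Agent.Results.MP_37efd7_lc.EveryCardinal

open Filter Topology Pool.Agent.Results.MP_37efd7_lc.LargeGroup

universe u

/-- `G` has a nondiscrete Hausdorff group topology. -/
def IsTopologizable (G : Type u) [Group G] : Prop :=
  ∃ t : TopologicalSpace G, @IsTopologicalGroup G t _ ∧ @T2Space G t ∧ ¬ @DiscreteTopology G t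

/-- In every Hausdorff group topology on `G`: every set of cardinality at most `κ` is closed. -/
def SmallSetsClosed (κ : Cardinal.{u}) (G : Type u) [Group G] : Prop :=
  ∀ t : TopologicalSpace G, @IsTopologicalGroup G t _ → @T2Space G t →
    ∀ A : Set G, Cardinal.mk A ≤ κ → @IsClosed G t A

/-- In every Hausdorff group topology on `G` all compact sets are finite. -/
def CompactSetsFinite (G : Type u) [Group G] : Prop :=
  ∀ t : TopologicalSpace G, @IsTopologicalGroup G t _ → @T2Space G t →
    ∀ K : Set G, @IsCompact G t K → K.Finite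

/-- Every Hausdorff group topology on `G` of tightness at most `κ` is discrete. -/
def TightDiscrete (κ : Cardinal.{u}) (G : Type u) [Group G] : Prop :=
  ∀ t : TopologicalSpace G, @IsTopologicalGroup G t _ → @T2Space G t →
    (∀ (A : Set G) (x : G), x ∈ @closure G t A →
      ∃ B ⊆ A, Cardinal.mk B ≤ κ ∧ x ∈ @closure G t B) → @DiscreteTopology G t

/-- In every Hausdorff group topology on `G` every convergent sequence is eventually constant. -/
def NoSequences (G : Type u) [Group G] : Prop :=
  ∀ t : TopologicalSpace G, @IsTopologicalGroup G t _ → @T2Space G t →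
    ∀ (s : ℕ → G) (x : G), Tendsto s atTop (@nhds G t x) → ∀ᶠ n in atTop, s n = x

lemma noSequences_of {G : Type u} [Group G] (h : SmallSetsClosed Cardinal.aleph0 G) :
    NoSequences G := by
  intro t h1 h2 s x hs
  let A : Set G := {g | g ≠ x ∧ ∃ n, s n = g}
  have hA : Cardinal.mk A ≤ Cardinal.aleph0 := by
    apply Cardinal.mk_le_aleph0_iff.2
    exact ((Set.countable_range s).mono fun g hg => hg.2).to_subtype
  have hcl := h t h1 h2 A hA
  have hx : Aᶜ ∈ 𝓝 x := hcl.isOpen_compl.mem_nhds fun hx => hx.1 rfl
  filter_upwards [hs hx] with n hn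
  by_contra hne
  exact hn ⟨hne, n, rfl⟩

/-- **Main theorem.** -/
theorem main (κ : Cardinal.{u}) (hκ : Cardinal.aleph0 ≤ κ) :
    ∃ (G : Type u) (_ : Group G), κ < Cardinal.mk G ∧ Cardinal.mk G ≤ 2 ^ κ ∧
      IsTopologizable G ∧ SmallSetsClosed κ G ∧ CompactSetsFinite G ∧ TightDiscrete κ G ∧
      NoSequences G := by
  obtain ⟨J, rfl⟩ := Quotient.exists_rep κ
  have hκ' : Cardinal.aleph0 ≤ Cardinal.mk J := hκ
  have : Infinite J := Cardinal.aleph0_le_mk_iff.1 hκ'
  refine ⟨Y302.WU.G J, inferInstance, Y302.WU.lt_mk_G J,
    Y302.WU.mk_G_le J TH787.WreathTower.countableW, Y302.WU.topologizableU _, ?_, ?_, ?_, ?_⟩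
  · intro t h1 h2 A hA
    exact Y302.WU.isClosed_of_mk_le A hA
  · intro t h1 h2 K hK
    exact Y302.WU.finite_of_isCompact K hK
  · intro t h1 h2 h
    exact Y302.WU.discrete_of_tight h
  · apply noSequences_of
    intro t h1 h2 A hA
    exact Y302.WU.isClosed_of_mk_le A (hA.trans hκ')

/-- (1) For every infinite cardinal `κ` there is a topologizable group `G` with `κ < |G| ≤ 2 ^ κ`
such that in every Hausdorff group topology on `G` every set of cardinality at most `κ` is closed,
all compact sets are finite, convergent sequences are eventually constant; and every Hausdorff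
group topology on `G` of tightness at most `κ` is discrete.
(2) For groups in the lowest universe: every sequential Hausdorff group topology on such a group is
discrete, and the group admits no sequential group topology of intermediate sequential order; so,
for every infinite cardinal `κ`, if some group admits such a topology, then there are
topologizable groups `G₁`, `G₂` with `κ < |G₂| ≤ 2 ^ κ` such that `G₁` admits one and `G₂` does
not, and conversely. -/
theorem result :
    (∀ κ : Cardinal.{u}, Cardinal.aleph0 ≤ κ → ∃ (G : Type u) (_ : Group G),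
      κ < Cardinal.mk G ∧ Cardinal.mk G ≤ 2 ^ κ ∧ IsTopologizable G ∧ SmallSetsClosed κ G ∧
      CompactSetsFinite G ∧ TightDiscrete κ G ∧ NoSequences G) ∧
    (∀ κ : Cardinal.{0}, Cardinal.aleph0 ≤ κ → ∃ (G : Type) (_ : Group G),
      κ < Cardinal.mk G ∧ Cardinal.mk G ≤ 2 ^ κ ∧ Topologizable G ∧ SmallSetsClosed κ G ∧
      (∀ t : TopologicalSpace G, @IsTopologicalGroup G t _ → @T2Space G t → @IsSeq G t →
        @DiscreteTopology G t) ∧
      ¬ AdmitsIntermediate G ∧
      ((∃ (G₁ : Type) (_ : Group G₁), AdmitsIntermediate G₁) ↔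
        ∃ (G₁ : Type) (_ : Group G₁), Topologizable G₁ ∧ AdmitsIntermediate G₁ ∧
          Topologizable G ∧ ¬ AdmitsIntermediate G)) := by
  refine ⟨main, fun κ hκ => ?_⟩
  obtain ⟨G, i, h1, h2, h3, h4, -, -, h5⟩ := main κ hκ
  have h6 : ∀ t : TopologicalSpace G, @IsTopologicalGroup G t _ → @T2Space G t → @IsSeq G t →
      @DiscreteTopology G t := by
    intro t ht1 ht2 hs
    exact discrete_of_isSeq (h5 t ht1 ht2) hs
  have h7 : ¬ AdmitsIntermediate G := by
    rintro ⟨t, ht1, ht2, ht3, ht4, ht5⟩
    have hd := h6 t ht1 ht2 ht3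
    rw [so_eq_zero] at ht4
    exact absurd ht4 (not_lt.mpr (bot_le))
  refine ⟨G, i, h1, h2, h3, h4, h6, h7, ?_, ?_⟩
  · rintro ⟨G₁, i₁, h⟩
    exact ⟨G₁, i₁, h.topologizable, h, h3, h7⟩
  · rintro ⟨G₁, i₁, -, h, -, -⟩
    exact ⟨G₁, i₁, h⟩

end Pool.Agent.Results.MP_37efd7_lc.EveryCardinal
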